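import Pool.Agent.K3h22.KZ
import Pool.Agent.Y885.WI3

/-!
# Knjzek partitions in all windows, up to very few elements of an arbitrary set which meets every interval `[x, l x]`

Definition used (in `Pool.Agent.H560R3.GB`): `sing m = 2 C₂ ∏_{p ∣ m, p > 2} (p - 1) / (p - 2)`, the singular series,
where `C₂ = ∏_{p > 2} (1 - 1 / (p - 1) ^ 2)` is the twin prime constant.
-/

set_option autoImplicit false

namespace Pool.Agent.Results.MP_73b532_nt.ElementsOfAnySet

open Finset
open Pool.Agent.H560R3.GB (sing)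

open Classical in
/-- The number of the primes `p` with `u < p ≤ v` such that `m - p` is a prime different from `p`. -/
noncomputable def partitions (m : ℕ) (u v : ℝ) : ℕ :=
  ((range (m + 1)).filter (fun p : ℕ => p.Prime ∧ (m - p).Prime ∧ p ≠ m - p ∧ u < p ∧ (p : ℝ) ≤ v)).card

/-- (1) For every interval `(u, v]` with `√m ≤ u`, `v ≤ m / 2` and `v - u ≥ m / (log m)^A` the number of primes
`p` in it, such that `m - p` is a prime different from `p`, agrees with `sing m (v - u) / (log m)²` up to a relative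
error of at most `ε`; (2) there is a prime `p` with `√m < p < m / 2`, `m - p` prime and
`p ≤ √m + m / (log m)^A`. -/
def Holds (ε : ℝ) (A m : ℕ) : Prop :=
  (∀ u v : ℝ, √(m : ℝ) ≤ u → v ≤ (m : ℝ) / 2 → (m : ℝ) / Real.log m ^ A ≤ v - u →
    |(partitions m u v : ℝ) - sing m * (v - u) / Real.log m ^ 2| ≤
      ε * (sing m * (v - u) / Real.log m ^ 2)) ∧
  ∃ p : ℕ, p.Prime ∧ (m - p).Prime ∧ √(m : ℝ) < p ∧ (p : ℝ) < (m : ℝ) / 2 ∧
    (p : ℝ) ≤ √(m : ℝ) + (m : ℝ) / Real.log m ^ A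

lemma holds_of (ε : ℝ) (hε : 0 < ε) (A : ℕ) (hA : 1 ≤ A) : ∃ n₀ : ℕ, ∀ m : ℕ, n₀ ≤ m → 2 ∣ m →
    Pool.Agent.W93.PG.WinP (min ε (1 / 2) / 2) (A + 1) m → Holds ε A m :=
  Pool.Agent.K3h22.KZ.kz_of ε hε A hA

/-- For every `l ≥ 2` and `A ≥ 1` there is a constant `C` such that for all `B` and `ε > 0` there is an `N₀` with the
following property. Let `T` be an arbitrary set of integers which contains an element of every interval
`[x, l x]`, `x ≥ 1` (the constants `C` and `N₀` do not depend on `T`). Then every even integer `N ≥ N₀` is the sum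
of an integer `m` which satisfies `Holds ε A m` (it has the expected number of Knjzek partitions in all
windows of length at least `m / log ^ A m`) and of at most `C (log log N) ^ 2` distinct elements of `T`;
moreover the elements of `T` can be chosen between `log ^ B N` and `N / log ^ B N`. -/
theorem result (l A : ℕ) (hl : 2 ≤ l) (hA : 1 ≤ A) : ∃ C : ℝ, ∀ (B : ℕ) (ε : ℝ), 0 < ε → ∃ N₀ : ℕ, ∀ T : Set ℕ,
    (∀ x : ℕ, 1 ≤ x → ∃ a ∈ T, x ≤ a ∧ a ≤ l * x) → ∀ N : ℕ, N₀ ≤ N → Even N →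
      ∃ S : Finset ℕ, (∀ a ∈ S, a ∈ T ∧ Real.log N ^ B ≤ a ∧ (a : ℝ) ≤ N / Real.log N ^ B) ∧
        (S.card : ℝ) ≤ C * Real.log (Real.log N) ^ 2 ∧ ∃ m : ℕ, m + ∑ a ∈ S, a = N ∧ Holds ε A m := by
  obtain ⟨C, hC⟩ := Pool.Agent.Y885.las_windows l hl (A + 1)
  refine ⟨C, fun B ε hε => ?_⟩
  obtain ⟨m₀, h0⟩ := holds_of ε hε A hA
  exact hC B m₀ (min ε (1 / 2) / 2) (div_pos (lt_min hε (by norm_num)) (by norm_num)) (Holds ε A) h0

end Pool.Agent.Results.MP_73b532_nt.ElementsOfAnySet
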