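import Pool.Agent.K3h81.PF.Few
import Pool.Agent.R459.C2

/-!
# The Goldbach–Knjzek conjecture, in all long windows, for all even integers near almost all numbers which arise from an
arbitrary integer by `C log log` changes of digits

Definition used from `Pool.Agent.H560R3.GB` (starting files): `sing m`: the singular series
`2 C₂ ∏_{p ∣ m, p > 2} (p - 1) / (p - 2)`, where `C₂` is the twin prime constant `∏_{p > 2} (1 - 1 / (p - 1) ^ 2)`.
-/

set_option autoImplicit false

namespace Pool.Agent.Results.MP_73b532_nt.FewDigitChanges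

open Finset Pool.Agent.H560R3.GB

open Classical in
/-- The number of the primes `p` in the window `(y₁, y₂]` with `√(2 n) < p ≤ n` for which `2 n - p` is a prime. -/
noncomputable def K (n y₁ y₂ : ℕ) : ℕ :=
  ((Ioc y₁ y₂).filter (fun p : ℕ => p.Prime ∧ (2 * n - p).Prime ∧ √((2 * n : ℕ) : ℝ) < p ∧ p ≤ n)).card

/-- For all windows `(y₁, y₂] ⊆ (0, n]` of length at least `n / log ^ A n` there is a prime `p` with
`√(2 n) < p ≤ n` and `y₁ < p ≤ y₂` for which `2 n - p` is a prime, and the number of these primes is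
`sing (2 n) * (y₂ - y₁) / log ^ 2 (2 n)` up to a relative error of at most `ε`. -/
def Holds (ε : ℝ) (A n : ℕ) : Prop :=
  ∀ y₁ y₂ : ℕ, y₁ < y₂ → y₂ ≤ n → (n : ℝ) / Real.log n ^ A ≤ (y₂ : ℝ) - y₁ →
    (∃ p : ℕ, p.Prime ∧ (2 * n - p).Prime ∧ √((2 * n : ℕ) : ℝ) < p ∧ p ≤ n ∧ y₁ < p ∧ p ≤ y₂) ∧
    |(K n y₁ y₂ : ℝ) - sing (2 * n) * (((y₂ : ℝ) - y₁) / Real.log (2 * n : ℕ) ^ 2)| ≤
      ε * (sing (2 * n) * (((y₂ : ℝ) - y₁) / Real.log (2 * n : ℕ) ^ 2))

/-- The digit number `i` (counted from the right, beginning with `0`) of `n` in base `b`. -/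
def digit (b i n : ℕ) : ℕ := n / b ^ i % b

/-- The number which arises from the number `N` with at most `K` digits in base `b`, if for every `i ∈ T`
the digit number `i` is replaced by `f i`. -/
def change (b K N : ℕ) (f : ℕ → ℕ) (T : Finset ℕ) : ℕ :=
  ∑ i ∈ range K, (if i ∈ T then f i else digit b i N) * b ^ i

/-- The positions `1, ..., K - 1` of a number with at most `K` digits are divided into three windows: the
first and the last `h` positions and the rest. -/
def window (h K : ℕ) (q : Fin 3) : Finset ℕ :=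
  if q = 0 then Ico 1 (1 + h) else if q = 1 then Ico (1 + h) (K - h) else Ico (K - h) K

/-- The choices of `r 0`, `r 1`, `r 2` positions in the three windows. -/
def choices (h K : ℕ) (r : Fin 3 → ℕ) : Finset (Fin 3 → Finset ℕ) :=
  Fintype.piFinset (fun q => powersetCard (r q) (window h K q))

/-- The integer `y` is regular: all the even integers `2 n` with `b ^ k / k ^ D ≤ 2 n ≤ b ^ k` at a distance of at most
`k ^ W` from `y` satisfy `Holds ε A`. -/
def Regular (ε : ℝ) (A D W b k y : ℕ) : Prop :=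
  ∀ n : ℕ, 2 * n ≤ b ^ k → b ^ k ≤ k ^ D * (2 * n) → |((2 * n : ℕ) : ℤ) - y| ≤ (k : ℤ) ^ W → Holds ε A n

open Classical in
/-- The number of the choices for which the number obtained by changing the digits of `N` at the chosen
positions (according to `f`) is not regular. -/
noncomputable def exceptions (ε : ℝ) (A D W b h k N : ℕ) (f : ℕ → ℕ) (r : Fin 3 → ℕ) : ℕ :=
  ((choices h k r).filter (fun T => ¬ Regular ε A D W b k (change b k N f (T 0 ∪ T 1 ∪ T 2)))).card

lemma K_le (n y₁ y₂ : ℕ) : K n y₁ y₂ ≤ Pool.Agent.W93.PG.cnt (2 * n) y₁ y₂ := by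
  classical
  unfold K Pool.Agent.W93.PG.cnt
  apply card_le_card
  intro p hp
  rw [mem_filter] at hp ⊢
  exact ⟨hp.1, hp.2.1, hp.2.2.1⟩

lemma K_ge (n y₁ y₂ : ℕ) (hy : y₂ ≤ n) :
    (Pool.Agent.W93.PG.cnt (2 * n) y₁ y₂ : ℝ) ≤ K n y₁ y₂ + (√((2 * n : ℕ) : ℝ) + 2) := by
  classical
  have h1 : (Ioc y₁ y₂).filter (fun p => p.Prime ∧ (2 * n - p).Prime) ⊆
      (Ioc y₁ y₂).filter (fun p : ℕ => p.Prime ∧ (2 * n - p).Prime ∧ √((2 * n : ℕ) : ℝ) < p ∧ p ≤ n) ∪
      range (⌊√((2 * n : ℕ) : ℝ)⌋₊ + 1) := by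
    intro p hp
    rw [mem_filter, mem_Ioc] at hp
    rw [mem_union, mem_filter, mem_Ioc, mem_range]
    obtain ⟨⟨a1, a2⟩, a3, a4⟩ := hp
    by_cases h2 : √((2 * n : ℕ) : ℝ) < p
    · exact Or.inl ⟨⟨a1, a2⟩, a3, a4, h2, a2.trans hy⟩
    · right
      rw [Nat.lt_succ_iff]
      exact Nat.le_floor (not_lt.1 h2)
  have h3 := (card_le_card h1).trans (card_union_le _ _)
  rw [card_range] at h3
  have h4 : (Pool.Agent.W93.PG.cnt (2 * n) y₁ y₂ : ℝ) ≤ K n y₁ y₂ + ((⌊√((2 * n : ℕ) : ℝ)⌋₊ : ℝ) + 1) := by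
    unfold Pool.Agent.W93.PG.cnt K
    exact_mod_cast h3
  have h5 := Nat.floor_le (Real.sqrt_nonneg ((2 * n : ℕ) : ℝ))
  linarith

lemma holds_of (A : ℕ) (ε : ℝ) (hε : 0 < ε) : ∃ m₀ : ℕ, ∀ n : ℕ, m₀ ≤ 2 * n →
    Pool.Agent.W93.PG.WinP (min ε (1 / 2) / 2) (A + 1) (2 * n) → Holds ε A n := by
  obtain ⟨ε', hε'⟩ : ∃ ε', ε' = min ε (1 / 2) := ⟨_, rfl⟩
  have he0 : 0 < ε' := by rw [hε']; exact lt_min hε (by norm_num)
  have he1 : ε' ≤ ε := by rw [hε']; exact min_le_left _ _
  have he2 : ε' ≤ 1 / 2 := by rw [hε']; exact min_le_right _ _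
  obtain ⟨n1, h1⟩ := Pool.Agent.H373R2.T7.ev_L' 3
  obtain ⟨n2, h2⟩ := Pool.Agent.H373R2.T7.ev_log' (A + 2) (10 / ε')
  rw [← hε']
  refine ⟨n1 + n2 + 6, fun n hn hw => ?_⟩
  have hL := h1 (2 * n) (by omega)
  have hc := h2 (2 * n) (by omega)
  intro y₁ y₂ hy hyn hl
  have hn3 : (3 : ℝ) ≤ n := by exact_mod_cast (by omega : 3 ≤ n)
  obtain ⟨L, hLd⟩ : ∃ L, L = Real.log ((2 * n : ℕ) : ℝ) := ⟨_, rfl⟩
  obtain ⟨R, hR⟩ : ∃ R, R = √((2 * n : ℕ) : ℝ) := ⟨_, rfl⟩
  have hR2 : R * R = 2 * n := by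
    rw [hR, Real.mul_self_sqrt (Nat.cast_nonneg _)]
    push_cast
    ring
  have hR1 : 1 ≤ R := by
    rw [hR]
    apply Real.one_le_sqrt.2
    push_cast
    linarith
  rw [← hLd] at hL hc
  rw [← hR] at hc
  have hlog0 : 1 ≤ Real.log (n : ℝ) := by
    rw [Real.le_log_iff_exp_le (by linarith)]
    linarith [Real.exp_one_lt_d9]
  have hlogL : Real.log (n : ℝ) ≤ L := by
    rw [hLd]
    exact Real.log_le_log (by linarith) (by exact_mod_cast (by omega : n ≤ 2 * n))
  have hyr : (y₁ : ℝ) < y₂ := by exact_mod_cast hy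
  obtain ⟨D, hD⟩ : ∃ D : ℝ, D = (y₂ : ℝ) - y₁ := ⟨_, rfl⟩
  have hD1 : n / L ^ A ≤ D := by
    rw [hD]
    refine le_trans ?_ hl
    apply div_le_div_of_nonneg_left (by linarith) (by positivity)
    exact pow_le_pow_left₀ (by linarith) hlogL _
  have hwin := hw y₁ y₂ hy (by omega) (by
    rw [← hLd, ← hD]
    refine le_trans ?_ hD1
    have e : ((2 * n : ℕ) : ℝ) = 2 * n := by push_cast; ring
    rw [e, pow_succ, div_le_div_iff₀ (by positivity) (by positivity)]
    have : 0 ≤ (n : ℝ) * L ^ A := by positivity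
    nlinarith)
  rw [← hLd, ← hD] at hwin
  obtain ⟨M, hM⟩ : ∃ M : ℝ, M = sing (2 * n) * (D / L ^ 2) := ⟨_, rfl⟩
  have e1 : sing (2 * n) * D / L ^ 2 = M := by rw [hM]; ring
  rw [e1] at hwin
  rw [← hLd, ← hD, ← hM]
  have hs := Pool.Agent.R459.sing_num (2 * n)
  have hD0 : 0 < D := by rw [hD]; linarith
  have hQ0 : 0 < D / L ^ 2 := by positivity
  have hM1 : 327 / 250 * (D / L ^ 2) ≤ M := by
    rw [hM]
    exact mul_le_mul_of_nonneg_right hs hQ0.le
  have hbig : R + 2 ≤ ε' / 2 * M := by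
    have h3 : n / L ^ (A + 2) ≤ D / L ^ 2 := by
      rw [pow_add, ← div_div]
      exact div_le_div_of_nonneg_right hD1 (by positivity)
    have h4 : 10 / ε' * L ^ (A + 2) ≤ R := hc
    have h5 : 5 * R ≤ ε' * (n / L ^ (A + 2)) := by
      rw [mul_div_assoc', le_div_iff₀ (by positivity)]
      have h6 : 10 * L ^ (A + 2) ≤ ε' * R := by
        have h7 : ε' * (10 / ε' * L ^ (A + 2)) ≤ ε' * R := mul_le_mul_of_nonneg_left h4 he0.le
        have h8 : ε' * (10 / ε' * L ^ (A + 2)) = 10 * L ^ (A + 2) := by field_simp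
        rw [← h8]
        exact h7
      have h9 : R * (10 * L ^ (A + 2)) ≤ R * (ε' * R) := mul_le_mul_of_nonneg_left h6 (by linarith)
      have h10 : R * (ε' * R) = ε' * (2 * n) := by rw [← hR2]; ring
      nlinarith
    have h11 : ε' * (n / L ^ (A + 2)) ≤ ε' * (D / L ^ 2) := mul_le_mul_of_nonneg_left h3 he0.le
    have h12 : ε' * (327 / 250 * (D / L ^ 2)) ≤ ε' * M := mul_le_mul_of_nonneg_left hM1 he0.le
    nlinarith
  have hK1 : (K n y₁ y₂ : ℝ) ≤ Pool.Agent.W93.PG.cnt (2 * n) y₁ y₂ := by exact_mod_cast K_le n y₁ y₂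
  have hK2 := K_ge n y₁ y₂ hyn
  rw [← hR] at hK2
  have hM0 : 0 < M := by linarith [mul_pos (by norm_num : (0 : ℝ) < 327 / 250) hQ0]
  have hfin : |(K n y₁ y₂ : ℝ) - M| ≤ ε' * M := by
    rw [abs_le] at hwin ⊢
    constructor <;> linarith [hwin.1, hwin.2]
  refine ⟨?_, hfin.trans (mul_le_mul_of_nonneg_right he1 hM0.le)⟩
  have hpos : 0 < K n y₁ y₂ := by
    have h3 := (abs_le.1 hfin).1
    have h4 : (0 : ℝ) < K n y₁ y₂ := by nlinarith
    exact_mod_cast h4
  classical
  unfold K at hpos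
  obtain ⟨p, hp⟩ := card_pos.1 hpos
  rw [mem_filter, mem_Ioc] at hp
  exact ⟨p, hp.2.1, hp.2.2.1, hp.2.2.2.1, hp.2.2.2.2, hp.1.1, hp.1.2⟩

/-- For every base `b ≥ 2` there is an `R ≥ 1` with the following property. Let `A`, `D`, `W`, `U` and `ε > 0` be given.
Then there are `C ≥ 1` and `M` such that for every sufficiently large `k` and every integer `0 ≤ N < b ^ k` the following
holds.

Let `l = ⌊log_b (k + 1)⌋ + 1` and `h = M l`, and divide the positions `1, ..., k - 1` of the digits into three windows: the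
first `h` and the last `h` of them, and the rest. Prescribe for every position `j` a digit `f j` different from the
digit of `N`. Let `r 0`, `r 1`, `r 2` be integers between `C l` and `1 / R` times the length of the respective
window (by the first assertion one can take `r q = C l`, so that only `3 C l = O(log log b ^ k)` of the digits of `N` are
changed).

If one chooses `r 0`, `r 1`, `r 2` positions in the three windows and replaces the digits of `N` at these positions, then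
for all but at most a proportion `1 / k ^ U` of the choices the number `y` obtained has the following property: ALL the
even integers `2 n` with `b ^ k / k ^ D ≤ 2 n ≤ b ^ k` at a distance of at most `k ^ W` from `y` satisfy `Holds ε A n`: for
all windows `(y₁, y₂] ⊆ (0, n]` of length at least `n / log ^ A n` there is a prime `p` in the window with
`√(2 n) < p ≤ n` for which `2 n - p` is prime, and the number of these `p` is as predicted, up to a relative error of at
most `ε`. -/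
theorem result (b : ℕ) (hb : 2 ≤ b) : ∃ R : ℕ, 1 ≤ R ∧ ∀ (A D W U : ℕ) (ε : ℝ), 0 < ε → ∃ C M k₀ : ℕ, 1 ≤ C ∧
    ∀ k : ℕ, k₀ ≤ k → (∀ q, R * (C * (Nat.log b (k + 1) + 1)) ≤ (window (M * (Nat.log b (k + 1) + 1)) k q).card) ∧
    ∀ N : ℕ, N < b ^ k → ∀ f : ℕ → ℕ, (∀ j, f j < b ∧ f j ≠ digit b j N) →
    ∀ r : Fin 3 → ℕ, (∀ q, C * (Nat.log b (k + 1) + 1) ≤ r q ∧
      R * r q ≤ (window (M * (Nat.log b (k + 1) + 1)) k q).card) →
    (exceptions ε A D W b (M * (Nat.log b (k + 1) + 1)) k N f r : ℝ) ≤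
      (choices (M * (Nat.log b (k + 1) + 1)) k r).card / (k : ℝ) ^ U := by
  classical
  obtain ⟨R, hR, H⟩ := Pool.Agent.K3h81.PF.few_near b hb
  refine ⟨8 * R, by omega, fun A D W U ε hε => ?_⟩
  obtain ⟨m₀, hm₀⟩ := holds_of A ε hε
  obtain ⟨C, hC, H1⟩ := H (A + 1) D W U (min ε (1 / 2) / 2) (div_pos (lt_min hε (by norm_num)) (by norm_num))
  obtain ⟨M, k₁, hM, H2⟩ := H1 (8 * R * C)
  obtain ⟨k2, h1⟩ := Pool.Agent.W93.DG.hh_small b M 4 hb
  obtain ⟨k3, h2⟩ := Pool.Agent.TH894.LG.pow_le_two_pow (D + 1)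
  refine ⟨C, 2 * M, k₁ + k2 + k3 + m₀ + 8, hC, fun k hk => ?_⟩
  have hwin : ∀ q, window (2 * M * (Nat.log b (k + 1) + 1)) k q =
      Pool.Agent.TH894.SM.Win (Pool.Agent.W93.DG.hh b M (k + 1)) (k + 1) q := by
    intro q
    unfold window Pool.Agent.TH894.SM.Win Pool.Agent.W93.DG.hh
    rw [Nat.add_sub_cancel]
  have hsm := h1 (k + 1) (by omega)
  have hlow : 8 * R * (C * (Nat.log b (k + 1) + 1)) ≤ Pool.Agent.W93.DG.hh b M (k + 1) := by
    unfold Pool.Agent.W93.DG.hh
    calc 8 * R * (C * (Nat.log b (k + 1) + 1)) = (8 * R * C) * (Nat.log b (k + 1) + 1) := by ring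
      _ ≤ (2 * M) * (Nat.log b (k + 1) + 1) := Nat.mul_le_mul_right _ (by omega)
  refine ⟨fun q => ?_, fun N hN f hf r hr => ?_⟩
  · rw [hwin]
    refine hlow.trans ?_
    unfold Pool.Agent.TH894.SM.Win
    split_ifs
    · rw [Nat.card_Ico]; omega
    · rw [Nat.card_Ico]; omega
    · rw [Nat.card_Ico]; omega
  have hun : ∀ S : Fin 3 → Finset ℕ, Pool.Agent.TH894.SM.un S = S 0 ∪ S 1 ∪ S 2 := by
    intro S
    unfold Pool.Agent.TH894.SM.un
    ext x
    simp only [mem_biUnion, mem_univ, true_and, mem_union]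
    constructor
    · rintro ⟨q, hq⟩
      have hq3 : q = 0 ∨ q = 1 ∨ q = 2 := by fin_cases q <;> simp
      rcases hq3 with rfl | rfl | rfl
      · exact Or.inl (Or.inl hq)
      · exact Or.inl (Or.inr hq)
      · exact Or.inr hq
    · rintro ((h | h) | h)
      · exact ⟨0, h⟩
      · exact ⟨1, h⟩
      · exact ⟨2, h⟩
  have hCh : choices (2 * M * (Nat.log b (k + 1) + 1)) k r = Pool.Agent.TH894.LG.Ch b M k r := by
    unfold choices Pool.Agent.TH894.LG.Ch
    simp only [hwin]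
  have hkey := H2 k (by omega) N hN f hf r (fun q => (hr q).1) (fun q => by
    have := (hr q).2
    rw [hwin] at this
    exact this)
    ((choices (2 * M * (Nat.log b (k + 1) + 1)) k r).filter
      (fun T => ¬ Regular ε A D W b k (change b k N f (T 0 ∪ T 1 ∪ T 2)))) (by rw [hCh]; exact filter_subset _ _) (by
      intro T hT
      rw [mem_filter] at hT
      have h3 := hT.2
      unfold Regular at h3
      push Not at h3
      obtain ⟨n, hm2, hm3, hm4, hm5⟩ := h3
      refine ⟨2 * n, dvd_mul_right 2 n, hm2, hm3, ?_, fun hw => hm5 (hm₀ n ?_ hw)⟩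
      · rw [hun T]
        exact hm4
      · by_contra hcon
        push Not at hcon
        have h4 : k ^ (D + 1) ≤ b ^ k := (h2 k (by omega)).trans (Nat.pow_le_pow_left hb k)
        have h5 : k ^ D * (2 * n) < k ^ (D + 1) := by
          rw [pow_succ]
          exact Nat.mul_lt_mul_of_pos_left (by omega) (Nat.pow_pos (by omega))
        omega)
  unfold exceptions
  refine hkey.trans (le_of_eq ?_)
  rw [← hCh]
  ring

end Pool.Agent.Results.MP_73b532_nt.FewDigitChanges
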