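import Pool.Agent.K3h22.KZ
import Pool.Agent.Y885.WI3

/-!
# Knjzek partitions in all windows, for sums of independent random integers, one at every scale, with up to two
fifths of the scales missing

Definition used (in `Pool.Agent.H560R3.GB`): `sing m = 2 C₂ ∏_{p ∣ m, p > 2} (p - 1) / (p - 2)`, the singular series,
where `C₂ = ∏_{p > 2} (1 - 1 / (p - 1) ^ 2)` is the twin prime constant.
-/

set_option autoImplicit false

namespace Pool.Agent.Results.MP_73b532_nt.RandomSums

open Finset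
open Pool.Agent.H560R3.GB (sing)

open Classical in
/-- The number of the primes `p` with `u < p ≤ v` such that `m - p` is a prime different from `p`. -/
noncomputable def partitions (m : ℕ) (u v : ℝ) : ℕ :=
  ((range (m + 1)).filter (fun p : ℕ => p.Prime ∧ (m - p).Prime ∧ p ≠ m - p ∧ u < p ∧ (p : ℝ) ≤ v)).card

/-- (1) For every interval `(u, v]` with `√m ≤ u`, `v ≤ m / 2` and `v - u ≥ m / (log m)^A` the number of primes
`p` in it, such that `m - p` is a prime different from `p`, agrees with `sing m (v - u) / (log m)²` up to a relative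
error of at most `ε`; (2) there is a prime `p` with `√m < p < m / 2`, `m - p` prime and
`p ≤ √m + m / (log m)^A`. -/
def Holds (ε : ℝ) (A m : ℕ) : Prop :=
  (∀ u v : ℝ, √(m : ℝ) ≤ u → v ≤ (m : ℝ) / 2 → (m : ℝ) / Real.log m ^ A ≤ v - u →
    |(partitions m u v : ℝ) - sing m * (v - u) / Real.log m ^ 2| ≤
      ε * (sing m * (v - u) / Real.log m ^ 2)) ∧
  ∃ p : ℕ, p.Prime ∧ (m - p).Prime ∧ √(m : ℝ) < p ∧ (p : ℝ) < (m : ℝ) / 2 ∧
    (p : ℝ) ≤ √(m : ℝ) + (m : ℝ) / Real.log m ^ A

lemma holds_of (ε : ℝ) (hε : 0 < ε) (A : ℕ) (hA : 1 ≤ A) : ∃ n₀ : ℕ, ∀ m : ℕ, n₀ ≤ m → 2 ∣ m →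
    Pool.Agent.W93.PG.WinP (min ε (1 / 2) / 2) (A + 1) m → Holds ε A m :=
  Pool.Agent.K3h22.KZ.kz_of ε hε A hA

/-- The set `J` of scales below `k` is rich: it contains more than three fifths of all the scales, more than one half
of the `m` lowest scales, and a positive proportion of the `m` highest scales (the last two conditions are
void for `m ≤ D log k`). -/
structure Rich (δ : ℝ) (D k : ℕ) (J : Finset ℕ) : Prop where
  lt : ∀ j ∈ J, j < k
  all : (3 / 5 + δ) * k ≤ (J.card : ℝ)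
  low : ∀ m ≤ k, (1 / 2 + δ) * m ≤ ((J.filter fun j => j < m).card : ℝ) + D * Real.log k
  high : ∀ m ≤ k, δ * m ≤ ((J.filter fun j => k - m ≤ j).card : ℝ) + D * Real.log k

open Classical in
/-- The probability of the event `E` if `x 0, ..., x (k - 1)` are independent random integers, where `x j` takes
its values in the finite set `s j`, and the value `x` with the probability `p j x`. -/
noncomputable def Prob (k : ℕ) (s : ℕ → Finset ℤ) (p : ℕ → ℤ → ℝ) (E : (Fin k → ℤ) → Prop) : ℝ :=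
  ∑ x ∈ Fintype.piFinset (fun j : Fin k => s j), if E x then ∏ j : Fin k, p j (x j) else 0

open Classical in
/-- Let `b ≥ 2`, `B ≥ 1`, `D`, `U`, `A ≥ 1`, `η > 0`, `δ > 0` and `ε > 0` be fixed, let `k` be large, and let `J` be an
arbitrary rich set of scales below `k`. Let `x 0, ..., x (k - 1)` be arbitrary independent random integers with
`|x j| ≤ B b ^ j` such that, for all `j` in `J`, no interval of the length `b ^ j / B` contains `x j` with a
probability larger than `1 - η` (nothing is assumed for the other `j`: these `x j` may be constants). Let `c` be an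
arbitrary integer with `|c| ≤ B b ^ k`. Then, with a probability of at least `1 - 1 / k ^ U`, the integer
`m = c + x 0 + ... + x (k - 1)` is not positive, or odd, or satisfies `Holds ε A m`: it has the expected
number of Knjzek partitions in all windows of length at least `m / log ^ A m`. -/
theorem result (b B D U A : ℕ) (hb : 2 ≤ b) (hB : 1 ≤ B) (hA : 1 ≤ A) (η δ ε : ℝ) (hη : 0 < η) (hδ : 0 < δ)
    (hε : 0 < ε) :
    ∃ k₀ : ℕ, ∀ k : ℕ, k₀ ≤ k → ∀ J : Finset ℕ, Rich δ D k J →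
      ∀ (s : ℕ → Finset ℤ) (p : ℕ → ℤ → ℝ),
        (∀ j < k, (∀ x ∈ s j, 0 ≤ p j x ∧ |x| ≤ (B : ℤ) * (b : ℤ) ^ j) ∧ ∑ x ∈ s j, p j x = 1) →
        (∀ j ∈ J, ∀ y : ℤ, ∑ x ∈ (s j).filter (fun x => y ≤ x ∧ (B : ℤ) * (x - y) ≤ (b : ℤ) ^ j), p j x ≤ 1 - η) →
        ∀ c : ℤ, |c| ≤ (B : ℤ) * (b : ℤ) ^ k →
          Prob k s p (fun x => 0 < c + ∑ j, x j ∧ Even (c + ∑ j, x j) ∧ ¬ Holds ε A (c + ∑ j, x j).toNat) ≤
            1 / (k : ℝ) ^ U := by
  obtain ⟨m₀, h0⟩ := holds_of ε hε A hA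
  obtain ⟨k₀, h1⟩ := Pool.Agent.Y885.rs_windows b hb B D (A + 1) U m₀ hB η δ _ hη hδ
    (div_pos (lt_min hε (by norm_num : (0 : ℝ) < 1 / 2)) (by norm_num : (0 : ℝ) < 2)) (Holds ε A) h0
  refine ⟨k₀, fun k hk J hJ s p hs hp c hc => ?_⟩
  have h2 := h1 k hk J s p c ⟨hJ.lt, hJ.low, hJ.high, hJ.all⟩ hs
    (fun j hj y => by rw [← sum_filter]; exact hp j hj y) hc
    (fun x => 0 < c + ∑ j, x j ∧ Even (c + ∑ j, x j) ∧ ¬ Holds ε A (c + ∑ j, x j).toNat)
    (fun _ => Classical.propDecidable _)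
    (fun ω _ h => ⟨h.1, even_iff_two_dvd.1 h.2.1, h.2.2⟩)
  unfold Prob
  exact h2

end Pool.Agent.Results.MP_73b532_nt.RandomSums
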