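import Pool.Agent.K3h22.KZ
import Pool.Agent.R459.Nbhd

/-!
# Knjzek partitions in all windows, for all even integers near almost all members of arbitrary thin families of
integers of nearly minimal additive energy

Definition used (in `Pool.Agent.H560R3.GB`): `sing m = 2 C₂ ∏_{p ∣ m, p > 2} (p - 1) / (p - 2)`, the singular series,
where `C₂ = ∏_{p > 2} (1 - 1 / (p - 1) ^ 2)` is the twin prime constant.
-/

set_option autoImplicit false

namespace Pool.Agent.Results.MP_73b532_nt.ThinFamilies

open Finset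
open Pool.Agent.H560R3.GB (sing)

open Classical in
/-- The number of the primes `p` with `u < p ≤ v` such that `m - p` is a prime different from `p`. -/
noncomputable def partitions (m : ℕ) (u v : ℝ) : ℕ :=
  ((range (m + 1)).filter (fun p : ℕ => p.Prime ∧ (m - p).Prime ∧ p ≠ m - p ∧ u < p ∧ (p : ℝ) ≤ v)).card

/-- (1) For every interval `(u, v]` with `√m ≤ u`, `v ≤ m / 2` and `v - u ≥ m / (log m)^A` the number of primes
`p` in it, such that `m - p` is a prime different from `p`, agrees with `sing m (v - u) / (log m)²` up to a relative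
error of at most `ε`; (2) there is a prime `p` with `√m < p < m / 2`, `m - p` prime and
`p ≤ √m + m / (log m)^A`. -/
def Holds (ε : ℝ) (A m : ℕ) : Prop :=
  (∀ u v : ℝ, √(m : ℝ) ≤ u → v ≤ (m : ℝ) / 2 → (m : ℝ) / Real.log m ^ A ≤ v - u →
    |(partitions m u v : ℝ) - sing m * (v - u) / Real.log m ^ 2| ≤
      ε * (sing m * (v - u) / Real.log m ^ 2)) ∧
  ∃ p : ℕ, p.Prime ∧ (m - p).Prime ∧ √(m : ℝ) < p ∧ (p : ℝ) < (m : ℝ) / 2 ∧
    (p : ℝ) ≤ √(m : ℝ) + (m : ℝ) / Real.log m ^ A

lemma holds_of (ε : ℝ) (hε : 0 < ε) (A : ℕ) (hA : 1 ≤ A) : ∃ n₀ : ℕ, ∀ m : ℕ, n₀ ≤ m → 2 ∣ m →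
    Pool.Agent.W93.PG.WinP (min ε (1 / 2) / 2) (A + 1) m → Holds ε A m :=
  Pool.Agent.K3h22.KZ.kz_of ε hε A hA

open Classical in
/-- The additive energy of order `h` of a finite family of integers `v i`: the number of solutions of
`v (a 1) + ... + v (a h) = v (b 1) + ... + v (b h)`. -/
noncomputable def energy (h : ℕ) {ι : Type} [Fintype ι] (v : ι → ℤ) : ℕ :=
  Nat.card {q : (Fin h → ι) × (Fin h → ι) // ∑ j, v (q.1 j) = ∑ j, v (q.2 j)}

open Classical in
/-- The number of the members `v i` of the family for which `Holds ε A m` fails for some even integer `m > 0` at a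
distance of at most `log ^ W N` from `v i`. -/
noncomputable def exceptions (ε : ℝ) (A W N : ℕ) {ι : Type} [Fintype ι] (v : ι → ℤ) : ℕ :=
  (univ.filter (fun i => ∃ m : ℕ, 0 < m ∧ Even m ∧ |(((m : ℤ) - v i : ℤ) : ℝ)| ≤ Real.log N ^ W ∧
    ¬ Holds ε A m)).card

/-- Let `h ≥ 1`, `B`, `C`, `W`, `U`, `A ≥ 1` and `ε > 0` be fixed, and let `N` be large. Let `v i`, `i ∈ ι`, be an
arbitrary finite family of integers `≤ B N` whose additive energy of order `h` is at most `log ^ C N` times
`(#ι) ^ (2 h) / N` (up to the power of the logarithm this is the least possible energy of a family with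
members in `[0, N]`, and the family may have as few as `N ^ (1 / h)` members). Then all the members of the
family, with at most `#ι / log ^ U N` exceptions, have the following property: ALL the positive even integers `m` at a
distance of at most `log ^ W N` from the member satisfy `Holds ε A m`: they have the expected number of Knjzek partitions
in all windows of length at least `m / log ^ A m`. -/
theorem result (h B C W U A : ℕ) (hh : 1 ≤ h) (hA : 1 ≤ A) (ε : ℝ) (hε : 0 < ε) :
    ∃ N₀ : ℕ, ∀ N : ℕ, N₀ ≤ N → ∀ (ι : Type) [Fintype ι] (v : ι → ℤ),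
      (∀ i, v i ≤ B * N) →
      (energy h v : ℝ) * N ≤ Real.log N ^ C * (Fintype.card ι : ℝ) ^ (2 * h) →
      (exceptions ε A W N v : ℝ) ≤ Fintype.card ι / Real.log N ^ U := by
  classical
  obtain ⟨m₀, hm₀⟩ := holds_of ε hε A hA
  obtain ⟨N₀, h0⟩ := Pool.Agent.R459.near_even h (A + 1) B C W U m₀ hh (min ε (1 / 2) / 2)
    (div_pos (lt_min hε (by norm_num)) (by norm_num)) (Holds ε A) hm₀
  refine ⟨N₀, fun N hN ι _ v hv hE => ?_⟩
  unfold exceptions
  refine h0 N hN ι v hv hE _ ?_
  intro i hi
  rw [mem_filter] at hi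
  exact hi.2

end Pool.Agent.Results.MP_73b532_nt.ThinFamilies
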